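import Pool.Agent.MP_26cd3b_lc.H27.Defs
import Pool.Agent.MP_26cd3b_lc.H27.Inst
import Pool.Agent.Shared.H56.More

set_option autoImplicit false

namespace Pool.Agent.MP_26cd3b_lc.H25

open Pool.Agent.Shared.H56 Pool.Agent.MP_26cd3b_lc.H27
open scoped Classical

theorem getD_flatMap_map {V : Type} (f : V → V → Bool) (us vs : List V) (i j : ℕ)
    (hi : i < us.length) (hj : j < vs.length) :
    (us.flatMap fun u => vs.map fun v => f u v).getD (i * vs.length + j) false =
      f us[i] vs[j] := by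
  induction us generalizing i with
  | nil => simp at hi
  | cons u us ih =>
    rw [List.flatMap_cons]
    cases i with
    | zero =>
      rw [List.getD_append _ _ _ _ (by simpa using hj)]
      simp [List.getD_eq_getElem?_getD, hj]
    | succ i =>
      rw [List.getD_append_right _ _ _ _ (by simp; nlinarith)]
      have : (i + 1) * vs.length + j - (vs.map fun v => f u v).length = i * vs.length + j := by
        simp [Nat.succ_mul]; omega
      rw [this, ih i (by simpa using hi)]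
      simp

variable {α : Type} [N487b59b3 α]

@[fun_prop] theorem decImp {p q : α → Prop} [DecidablePred p] [DecidablePred q]
    [∀ a, Decidable (p a → q a)] (hp : PT fun a => decide (p a)) (hq : PT fun a => decide (q a)) :
    PT (fun a => decide (p a → q a)) :=
  (hp.not.or hq).congr fun a => by by_cases h : p a <;> simp [h]

@[fun_prop] theorem pt_qd {qs : α → List Quad} {i : α → ℕ} (h1 : PT qs) (h2 : PT i) :
    PT fun a => qd (qs a) (i a) := by unfold qd; fun_prop

@[fun_prop] theorem pt_lvq {n j : α → ℕ} {q : α → Quad} (h1 : PT n) (h2 : PT q) (h3 : PT j) :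
    PT fun a => lvq (n a) (q a) (j a) := by unfold lvq; fun_prop

@[fun_prop] theorem pt_inS {qs : α → List Quad} {j l : α → ℕ}
    [∀ a, Decidable (inS (qs a) (j a) (l a))] (h1 : PT qs) (h2 : PT j)
    (h3 : PT l) : PT fun a => decide (inS (qs a) (j a) (l a)) :=
  (show PT fun a => decide (2 ≤ j a ∧ (l a = (qd (qs a) (j a / 2 - 1)).2.1 ∨
    l a = (qd (qs a) (j a / 2 - 1)).2.2.2 ∨ (j a % 2 = 1 ∧ (l a = (qd (qs a) (j a / 2 - 1)).1 ∨
      l a = (qd (qs a) (j a / 2 - 1)).2.2.1)))) by fun_prop).congr fun _ => decide_eq_decide.2 Iff.rfl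

@[fun_prop] theorem pt_cN {n K v : α → ℕ} (h1 : PT n) (h2 : PT K) (h3 : PT v) :
    PT fun a => cN (n a) (K a) (v a) := by unfold cN; fun_prop

@[fun_prop] theorem pt_esG {j i : α → ℕ} [∀ a, Decidable (esG (j a) (i a))] (h1 : PT j)
    (h2 : PT i) : PT fun a => decide (esG (j a) (i a)) :=
  (show PT fun a => decide (j a = 0 ∨ (j a = 1 ∧ (i a = 0 ∨ i a = 1 ∨ i a = 5)) ∨
    (j a = 2 ∧ (i a = 0 ∨ i a = 2 ∨ i a = 4 ∨ i a = 5))) by fun_prop).congr fun _ =>
      decide_eq_decide.2 Iff.rfl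

@[fun_prop] theorem pt_cEs {n v j i : α → ℕ} {qs : α → List Quad}
    [∀ a, Decidable (cEs (n a) (qs a) (v a) (j a) (i a))] (h1 : PT n) (h2 : PT qs) (h3 : PT v)
    (h4 : PT j) (h5 : PT i) : PT fun a => decide (cEs (n a) (qs a) (v a) (j a) (i a)) :=
  (show PT fun a => if v a ≤ 2 * (qs a).length then decide (j a ≠ 2 ∨ i a = 0 ∨ i a = n a + 1 ∨
    inS (qs a) (v a + 1) (i a) ∨ inS (qs a) (v a) (i a))
    else decide (v a ≤ 3 * (qs a).length ∨ esG (j a) (i a)) by fun_prop).congr fun a => by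
      simp only [cEs]; split_ifs <;> simp

@[fun_prop] theorem pt_cCh {K v i l : α → ℕ} [∀ a, Decidable (cCh (K a) (v a) (i a) (l a))]
    (h1 : PT K) (h2 : PT v) (h3 : PT i) (h4 : PT l) :
    PT fun a => decide (cCh (K a) (v a) (i a) (l a)) :=
  (show PT fun a => decide (2 * K a < v a ∧ (((i a = 1 ∧ l a = 3) ∨ (i a = 3 ∧ l a = 5)) ∨
    (3 * K a < v a ∧ i a = 0 ∧ l a = 4))) by fun_prop).congr fun _ => decide_eq_decide.2 Iff.rfl

/-- membership in the label set -/
def mL (r n K v : ℕ) (x : Lb) : Prop := x ∈ cLab r n K v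

@[fun_prop] theorem pt_cLab (r : ℕ) {n K v : α → ℕ} {x : α → Lb}
    [∀ a, Decidable (mL r (n a) (K a) (v a) (x a))] (h1 : PT n) (h2 : PT K) (h3 : PT v)
    (h4 : PT x) : PT fun a => decide (mL r (n a) (K a) (v a) (x a)) :=
  (show PT fun a => decide (((x a).1 = 0 ∧ (x a).2 < 3) ∨
    ((x a).1 = 2 ∧ (x a).2 < cN (n a) (K a) (v a)) ∨ ((x a).1 = 1 ∧ (x a).2 ≤ r))
    by fun_prop).congr fun _ => decide_eq_decide.2 mem_cLab.symm

@[fun_prop] theorem pt_cAdj (r : ℕ) {n v : α → ℕ} {qs : α → List Quad} {x y : α → Lb}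
    [∀ a, Decidable (cAdj r (n a) (qs a) (v a) (x a) (y a))] (h1 : PT n) (h2 : PT qs) (h3 : PT v)
    (h4 : PT x) (h5 : PT y) : PT fun a => decide (cAdj r (n a) (qs a) (v a) (x a) (y a)) :=
  (show PT fun a => decide (mL r (n a) (qs a).length (v a) (x a) ∧
    mL r (n a) (qs a).length (v a) (y a) ∧ x a ≠ y a ∧
    ((x a).1 = 0 → (y a).1 = 2 → cEs (n a) (qs a) (v a) (x a).2 (y a).2) ∧
    ((x a).1 = 2 → (y a).1 = 0 → cEs (n a) (qs a) (v a) (y a).2 (x a).2) ∧
    ((x a).1 = 2 → (y a).1 = 2 → (x a).2 + 1 = (y a).2 ∨ (y a).2 + 1 = (x a).2 ∨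
      cCh (qs a).length (v a) (x a).2 (y a).2 ∨ cCh (qs a).length (v a) (y a).2 (x a).2))
    by fun_prop).congr fun _ => decide_eq_decide.2 Iff.rfl

@[fun_prop] theorem pt_cPar {K v : α → ℕ} (h1 : PT K) (h2 : PT v) :
    PT fun a => cPar (K a) (v a) := by unfold cPar; fun_prop

@[fun_prop] theorem pt_cDn {K v : α → ℕ} (h1 : PT K) (h2 : PT v) :
    PT fun a => cDn (K a) (v a) := by unfold cDn; fun_prop

@[fun_prop] theorem pt_cMt {n v : α → ℕ} {qs : α → List Quad} {b : α → Lb} (h1 : PT n)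
    (h2 : PT qs) (h3 : PT v) (h4 : PT b) : PT fun a => cMt (n a) (qs a) (v a) (b a) := by
  unfold cMt; fun_prop

@[fun_prop] theorem pt_cSp {K v : α → ℕ} (h1 : PT K) (h2 : PT v) :
    PT fun a => cSp (K a) (v a) := by unfold cSp; fun_prop

@[fun_prop] theorem pt_cDir {K z : α → ℕ} {x : α → Vt} (h1 : PT K) (h2 : PT z) (h3 : PT x) :
    PT fun a => cDir (K a) (z a) (x a) := by unfold cDir; fun_prop

/-- the local condition at one cell -/
def cC (r n : ℕ) (qs : List Quad) (z : ℕ) (x x' : Vt) : Prop :=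
  (cDir qs.length z x ≠ cDir qs.length z x' →
    cAdj r n qs z (cDir qs.length z x) (cDir qs.length z x')) ∧
  (0 < z → cDir qs.length z x = up → cDir qs.length z x' ≠ up →
    cDir qs.length (cPar qs.length z) x = cMt n qs z (cDir qs.length z x'))

@[fun_prop] theorem pt_cC (r : ℕ) {n z : α → ℕ} {qs : α → List Quad} {x y : α → Vt}
    [∀ a, Decidable (cC r (n a) (qs a) (z a) (x a) (y a))] (h1 : PT n) (h2 : PT qs) (h3 : PT z)
    (h4 : PT x) (h5 : PT y) : PT fun a => decide (cC r (n a) (qs a) (z a) (x a) (y a)) :=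
  (show PT fun a => decide ((cDir (qs a).length (z a) (x a) ≠ cDir (qs a).length (z a) (y a) →
    cAdj r (n a) (qs a) (z a) (cDir (qs a).length (z a) (x a)) (cDir (qs a).length (z a) (y a))) ∧
    (0 < z a → cDir (qs a).length (z a) (x a) = up → cDir (qs a).length (z a) (y a) ≠ up →
      cDir (qs a).length (cPar (qs a).length (z a)) (x a) =
        cMt (n a) (qs a) (z a) (cDir (qs a).length (z a) (y a)))) by fun_prop).congr fun _ =>
    decide_eq_decide.2 Iff.rfl

/-- adjacency test -/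
noncomputable def gB (r n : ℕ) (qs : List Quad) (x x' : Vt) : Bool :=
  decide (x ≠ x') && (List.range (4 * qs.length + 1)).all fun z =>
    decide (cC r n qs z x x') && decide (cC r n qs z x' x)

@[fun_prop] theorem pt_gB (r : ℕ) {n : α → ℕ} {qs : α → List Quad} {x y : α → Vt}
    (h1 : PT n) (h2 : PT qs) (h4 : PT x) (h5 : PT y) :
    PT fun a => gB r (n a) (qs a) (x a) (y a) := by unfold gB; fun_prop

/-- vertex test -/
noncomputable def vB (r n : ℕ) (qs : List Quad) (x : Vt) : Bool :=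
  decide (mL r n qs.length x.1 x.2) && decide (0 < x.1 → x.2 ≠ up) &&
    (List.range (4 * qs.length + 1)).all fun w =>
      decide (0 < w → cPar qs.length w = x.1 → cDn qs.length w ≠ x.2)

@[fun_prop] theorem pt_vB (r : ℕ) {n : α → ℕ} {qs : α → List Quad} {x : α → Vt}
    (h1 : PT n) (h2 : PT qs) (h4 : PT x) : PT fun a => vB r (n a) (qs a) (x a) := by
  unfold vB; fun_prop

/-- the list of vertices -/
noncomputable def vl (r n : ℕ) (qs : List Quad) : List Vt :=
  (List.range (4 * qs.length + 1) ×ˢ (List.range 3 ×ˢ List.range (n + (r + 7)))).filter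
    (vB r n qs)

theorem pt_vl (r : ℕ) {n : α → ℕ} {qs : α → List Quad} (h1 : PT fun a => un (n a)) (h2 : PT qs) :
    PT fun a => vl r (n a) (qs a) := by
  have h3 := h1.of_un
  unfold vl
  exact PT.filter (f := fun a x => vB r (n a) (qs a) x) (by fun_prop) (by fun_prop)

theorem mem_vl {r n : ℕ} {qs : List Quad} (h : WF n qs) {x : Vt} :
    x ∈ vl r n qs ↔ (inst r n qs h).InV (inst r n qs h).m x := by
  obtain ⟨v, p, q⟩ := x
  simp only [vl, vB, mL, List.mem_filter, List.mem_product, List.mem_range, Bool.and_eq_true,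
    decide_eq_true_eq, List.all_eq_true, TD.InV, inst]
  refine ⟨fun g => ⟨g.1.1, g.2.1.1, g.2.1.2, g.2.2⟩, fun g => ⟨⟨g.1, ?_⟩, ⟨g.2.1, g.2.2.1⟩, g.2.2.2⟩⟩
  have := mem_cLab.1 g.2.1
  unfold cN at this
  split_ifs at this <;> simp only at this <;> omega

theorem gB_iff {r n : ℕ} {qs : List Quad} (h : WF n qs) {x y : Vt} :
    gB r n qs x y = true ↔ (inst r n qs h).G (inst r n qs h).m x y := by
  simp only [gB, Bool.and_eq_true, decide_eq_true_eq, List.all_eq_true, List.mem_range]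
  rfl

/-- the adjacency matrix of the instance is computed in polynomial time -/
theorem inst_code (r : ℕ) : ∃ f : ℕ → List Quad → List Bool,
    (∀ {α : Type} [N487b59b3 α] {n : α → ℕ} {qs : α → List Quad}, PT (fun a => un (n a)) → PT qs →
      PT fun a => f (n a) (qs a)) ∧
    ∀ (n : ℕ) (qs : List Quad) (h : WF n qs), ∃ e : Fin (Nat.sqrt (f n qs).length) → Vt,
      Function.Injective e ∧ (∀ x, x ∈ (inst r n qs h).Vs (inst r n qs h).m ↔ ∃ v, e v = x) ∧
      ∀ a b, (graphOf (f n qs)).Adj a b ↔ (inst r n qs h).G (inst r n qs h).m (e a) (e b) := by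
  refine ⟨fun n qs => (vl r n qs).flatMap fun u => (vl r n qs).map fun v => gB r n qs u v,
    fun {α} _ n qs h1 h2 => ?_, fun n qs h => ?_⟩
  · have h3 := h1.of_un
    have h4 := pt_vl r h1 h2
    obtain ⟨L, hL⟩ : ∃ L : α → List Vt, L = fun a => vl r (n a) (qs a) := ⟨_, rfl⟩
    rw [← hL] at h4
    refine PT.congr (f := fun a => (L a).flatMap fun u => (L a).map fun v => gB r (n a) (qs a) u v)
      (by fun_prop) fun a => by rw [hL]
  · have hl : Nat.sqrt ((vl r n qs).flatMap fun u =>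
        (vl r n qs).map fun v => gB r n qs u v).length = (vl r n qs).length := by
      simp [List.length_flatMap, Nat.sqrt_eq]
    have hnd : (vl r n qs).Nodup :=
      (List.nodup_range.product (List.nodup_range.product List.nodup_range)).filter _
    have hinj : Function.Injective fun i : Fin (Nat.sqrt ((vl r n qs).flatMap fun u =>
        (vl r n qs).map fun v => gB r n qs u v).length) => (vl r n qs)[i.1]'(hl ▸ i.2) :=
      fun i j e => Fin.ext ((List.Nodup.getElem_inj_iff hnd).1 e)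
    refine ⟨_, hinj, fun x => ?_, fun a b => ?_⟩
    · rw [TD.mem_Vs, ← mem_vl h, List.mem_iff_getElem]
      exact ⟨fun ⟨i, hi, e⟩ => ⟨⟨i, hl ▸ hi⟩, e⟩, fun ⟨i, e⟩ => ⟨i.1, hl ▸ i.2, e⟩⟩
    · have key : ∀ a b : Fin (Nat.sqrt ((vl r n qs).flatMap fun u =>
          (vl r n qs).map fun v => gB r n qs u v).length),
          ((vl r n qs).flatMap fun u => (vl r n qs).map fun v => gB r n qs u v).getD
            (a.1 * Nat.sqrt ((vl r n qs).flatMap fun u =>
              (vl r n qs).map fun v => gB r n qs u v).length + b.1) false =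
            gB r n qs ((vl r n qs)[a.1]'(hl ▸ a.2)) ((vl r n qs)[b.1]'(hl ▸ b.2)) := by
        intro a b
        refine Eq.trans ?_ (getD_flatMap_map _ _ _ a.1 b.1 (hl ▸ a.2) (hl ▸ b.2))
        congr 3
      rw [graphOf, SimpleGraph.fromRel_adj, key, key, gB_iff h, gB_iff h]
      exact ⟨fun g => g.2.elim id TD.G.symm, fun g => ⟨fun e => g.1 (by rw [e]), Or.inl g⟩⟩

end Pool.Agent.MP_26cd3b_lc.H25
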